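import Pool.Agent.Q67.PI.Syn

/-!
In every minimal PI system `(X, T)` the points `x` for which `(x, x)` is a minimal, hence
piecewise syndetically recurrent point of `T × T²` form a residual set. So the answer to Q1 (whether
there is a minimal PI system such that for no `x` the diagonal point `(x, x)` is `F_ps`-recurrent
under `T × T²`) is no.

The definitions (`Pool.Agent.Q67.PI.Tower`):

* `Sys`: a system, a homeomorphism `T` of a nonempty compact metric space `X`;
* `orbitClosure S z`: the closure of `{S^n z : n ∈ ℤ}`;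
* `MinimalPoint S z`: the orbit closure of `z` is a minimal subsystem;
* `Sys.Minimal`: every orbit is dense; `FactorMap A B π`: continuous, surjective, equivariant;
* `Proximal A B π`, `Equicont A B π`: proximal and equicontinuous extensions;
* `IsTower η Z π`: a tower of minimal systems `Z lam`, `lam ≤ η`, which starts with a point, with
  proximal or equicontinuous successor steps and inverse limits at limit ordinals;
* `Sys.IsPI`: minimal, and the image of the top of such a tower under a proximal factor map.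
-/

open Set Filter Topology Pool.Agent.Q67.PI

set_option autoImplicit false

universe u v

namespace Pool.Agent.Results.MP_76db73_an.DiagonalRecurrence

/-- `{n ∈ ℤ : S^n z ∈ V}` -/
def returnTimes {Z : Type*} [TopologicalSpace Z] (S : Z ≃ₜ Z) (z : Z) (V : Set Z) : Set ℤ :=
  {n | (S ^ n) z ∈ V}

/-- For some `N` the union of the sets `B - j`, `0 ≤ j ≤ N`, contains arbitrarily long intervals
of consecutive integers. -/
def PiecewiseSyndetic (B : Set ℤ) : Prop :=
  ∃ N : ℕ, ∀ L : ℕ, ∃ m : ℤ, ∀ i : ℕ, i < L → ∃ j : ℕ, j ≤ N ∧ m + i + j ∈ B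

/-- For some `N` the union of the sets `B - j`, `0 ≤ j ≤ N`, is `ℤ`. -/
def Syndetic (B : Set ℤ) : Prop := ∃ N : ℕ, ∀ m : ℤ, ∃ j : ℕ, j ≤ N ∧ m + j ∈ B

/-- The point `z` is `F_ps`-recurrent. -/
def FpsRecurrent {Z : Type*} [TopologicalSpace Z] (S : Z ≃ₜ Z) (z : Z) : Prop :=
  ∀ V : Set Z, IsOpen V → z ∈ V → PiecewiseSyndetic (returnTimes S z V)

/-- Every minimal PI system `(X, T)` has a point `x` for which `(x, x)` is `F_ps`-recurrent under
`T × T²`. Moreover the set of the points `x` for which `(x, x)` is a minimal point of `T × T²`, so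
that the sets of return times are even syndetic, is residual. -/
theorem result {A : Sys.{u}} (h : Sys.IsPI.{u, v} A) :
    (∃ x : A.X, FpsRecurrent (A.T.prodCongr (A.T ^ 2)) (x, x)) ∧
    {x : A.X | MinimalPoint (A.T.prodCongr (A.T ^ 2)) (x, x) ∧
      ∀ V : Set (A.X × A.X), IsOpen V → (x, x) ∈ V →
        Syndetic (returnTimes (A.T.prodCongr (A.T ^ 2)) (x, x) V)} ∈ residual A.X := by
  have h1 := Pool.Agent.Q67.PI.main.{u, v, 0} h
  have h2 : {x : A.X | MinimalPoint (A.T.prodCongr (A.T ^ 2)) (x, x) ∧
      ∀ V : Set (A.X × A.X), IsOpen V → (x, x) ∈ V →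
        Syndetic (returnTimes (A.T.prodCongr (A.T ^ 2)) (x, x) V)} ∈ residual A.X := by
    filter_upwards [h1] with x hx
    have h3 := minimalPoint_pair (hx (Fin 2) fun i => ((i : ℕ) : ℤ) + 1)
    exact ⟨h3, fun V hV hxV => syndetic_of_minimalPoint h3 (hV.mem_nhds hxV)⟩
  refine ⟨?_, h2⟩
  obtain ⟨x, hx⟩ := (dense_of_mem_residual h2).nonempty
  refine ⟨x, fun V hV hxV => ?_⟩
  obtain ⟨N, hN⟩ := hx.2 V hV hxV
  exact ⟨N, fun L => ⟨0, fun i _ => hN (0 + i)⟩⟩

end Pool.Agent.Results.MP_76db73_an.DiagonalRecurrence
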